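import Pool.Agent.Q173.MU.Data

/-!
# Iwasawa's conjecture for abelian extensions of an imaginary quadratic field: a gap with an absolute constant

Let `k` be an imaginary quadratic field, `K / k` an abelian extension of degree prime to `p`. If the `μ`-invariant of the
cyclotomic `ℤ_p`-extension of `K` is not zero then for ALL abelian `p`-extensions `M` of `k` of exponent `p ^ e` (with
`M ∩ k_∞ = k`) the `μ`-invariant of `K M` is at least `[M : k] / p ^ (2 e)`. The constant does not depend on `k` and `K`: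
each character of `Gal(K / k)` gives a module over the group ring of `Gal(M / k)` which has one relation more than
generators.
-/

set_option autoImplicit false

namespace Pool.Agent.Results.MP_b78433_nt.AbsoluteGap

open Pool.Agent.Q173.MU NumberField IsLocalRing

/-- The exponent of `p` in the class number of `K`. -/
noncomputable def vh (p : ℕ) (K : IntermediateField ℚ ℂ) : ℕ := padicValNat p (Nat.card (ClassGroup (𝓞 K)))

/-- The conjecture for the field `K`: the exponent of `p` in the class number of the `m`-th layer of the cyclotomic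
`ℤ_p`-extension of `K` is at most `C (m + 1)`, i.e. the `μ`-invariant is zero. -/
def MuZero (p : ℕ) (K : IntermediateField ℚ ℂ) : Prop :=
  ∃ C : ℕ, ∀ m L, IsLayer p m K L → vh p L ≤ C * (m + 1)

/-- `K` is a finite abelian extension of `k`. -/
def IsAbelian (k K : IntermediateField ℚ ℂ) : Prop :=
  ∃ h : k ≤ K, FiniteDimensional ℚ K ∧ IsGalois k (IntermediateField.extendScalars h) ∧
    ∀ σ τ : GalGrp h, σ * τ = τ * σ

/-- `K` is a finite abelian extension of `k` of degree prime to `p`. -/
def IsTame (p : ℕ) (k K : IntermediateField ℚ ℂ) : Prop := IsAbelian k K ∧ ¬ p ∣ deg k K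

/-- Local rings and modules for the characters: `ι K` is the set of the irreducible characters `ψ` of `Gal(K / k)` over
`ℚ_p`, `O K ψ` the localisation at `(p)` of `ℤ_p[ψ][[T]]`, `d K ψ` the degree of `ℤ_p[ψ]` over `ℤ_p`, and `X K ψ M` the
`ψ`-component of the unramified Iwasawa module of the field `K M`, localised at `(p)`. -/
structure CharData where
  /-- the characters -/
  ι : IntermediateField ℚ ℂ → Type
  [fin : ∀ K, Fintype (ι K)]
  /-- the degrees -/
  d : ∀ K, ι K → ℕ
  /-- the rings -/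
  O : ∀ K, ι K → Type
  [ring : ∀ K i, CommRing (O K i)]
  [loc : ∀ K i, IsLocalRing (O K i)]
  /-- the modules -/
  X : ∀ K, ι K → IntermediateField ℚ ℂ → Type
  [grp : ∀ K i M, AddCommGroup (X K i M)]
  [mod : ∀ K i M, Module (O K i) (X K i M)]

attribute [instance] CharData.fin CharData.ring CharData.loc CharData.grp CharData.mod

/-- The `μ`-invariant of `K M`: the sum of the `μ`-invariants of the components. -/
noncomputable def CharData.mu (D : CharData) (K M : IntermediateField ℚ ℂ) : ℕ :=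
  ∑ i : D.ι K, D.d K i * (Module.length (D.O K i) (D.X K i M)).toNat

/-- The residue fields are infinite of characteristic `p`, and the degrees are positive. -/
def IsLoc (D : CharData) (p : ℕ) : Prop := ∀ K i,
  Infinite (ResidueField (D.O K i)) ∧ CharP (ResidueField (D.O K i)) p ∧ 0 < D.d K i

/-- The modules have finite length (Iwasawa). -/
def IsTorsion (D : CharData) : Prop := ∀ K i M,
  Module.Finite (D.O K i) (D.X K i M) ∧ Module.length (D.O K i) (D.X K i M) ≠ ⊤

/-- Iwasawa's formula for the field `K M`. -/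
def Formula (D : CharData) (p : ℕ) (k : IntermediateField ℚ ℂ) : Prop := ∀ K M e, IsTame p k K → IsAb p e k M →
  ∃ C : ℝ, ∀ m L, IsLayer p m (K ⊔ M) L → |(vh p L : ℝ) - D.mu K M * deg (K ⊔ M) L| ≤ C * (m + 1)

/-- Presentations: if `M / k` is a finite Galois `p`-extension with group `G`, then `X K ψ M` is a module over the group
ring of `G` with `g` generators and `g + 1` relations, `g` the number of generators of `X K ψ k`, and its coinvariants are
`X K ψ k`. (This is the `ψ`-component of `RΓ_Iw(𝓞_{k,S}, ℤ_p[G × Gal(K / k)](1))`, localised at `(p)`, whose Euler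
characteristic is minus the number of the complex places of `k`, for every `ψ`.) -/
def HasPres (D : CharData) (p : ℕ) (k : IntermediateField ℚ ℂ) : Prop := ∀ (K M : IntermediateField ℚ ℂ)
  (i : D.ι K) (h : k ≤ M), IsTame p k K → IsExt p h → IsPGroup p (GalGrp h) →
    IsPres (D.O K i) (GalGrp h) (D.X K i M) (D.X K i k) (rk (D.O K i) (D.X K i k)) (rk (D.O K i) (D.X K i k) + 1)

/-- The result of Iwasawa quoted in the problem: every finite abelian extension `K'` of `k` contains one of degree prime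
to `p` such that the conjecture for it implies the conjecture for `K'`. -/
def Descent (p : ℕ) (k : IntermediateField ℚ ℂ) : Prop := ∀ K', IsAbelian k K' →
  ∃ K, IsTame p k K ∧ (MuZero p K → MuZero p K')

/-- The known properties. -/
structure Known (D : CharData) (p : ℕ) (k : IntermediateField ℚ ℂ) : Prop where
  loc : IsLoc D p
  torsion : IsTorsion D
  formula : Formula D p k
  pres : HasPres D p k
  descent : Descent p k
  layers : HasLayers p

/-- For infinitely many layers `L` of `K M` the exponent of `p` in the class number is at most `c [M : k] [L : K M]`. -/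
def SmallOften (p : ℕ) (k K M : IntermediateField ℚ ℂ) (c : ℝ) : Prop :=
  ∀ N : ℕ, ∃ m ≥ N, ∃ L, IsLayer p m (K ⊔ M) L ∧ (vh p L : ℝ) ≤ c * (deg k M * deg (K ⊔ M) L)

/-- For all layers `L` of `K M` the exponent of `p` in the class number is at least `c [M : k] [L : K M] - O(m)`. -/
def LargeAlways (p : ℕ) (k K M : IntermediateField ℚ ℂ) (c : ℝ) : Prop :=
  ∃ C : ℝ, ∀ m L, IsLayer p m (K ⊔ M) L → c * (deg k M * deg (K ⊔ M) L) - C * (m + 1) ≤ (vh p L : ℝ)

section

variable {p : ℕ} [hp : Fact p.Prime] {D : CharData} {k : IntermediateField ℚ ℂ}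

/-- linear functions are smaller than the degrees of the layers -/
lemma exists_small {F : IntermediateField ℚ ℂ} (hF : FiniteDimensional ℚ F)
    (C ε : ℝ) (hε : 0 < ε) : ∃ M : ℕ, ∀ m ≥ M, ∀ K, IsLayer p m F K → C * (m + 1) < ε * deg F K := by
  have hp1 : (1 : ℝ) < p := by exact_mod_cast hp.out.one_lt
  set d : ℝ := (Module.finrank ℚ F : ℝ) with hd
  have hd0 : 0 < d := by
    rw [hd]
    exact_mod_cast Module.finrank_pos
  have h1 : Filter.Tendsto (fun m : ℕ => ((m : ℝ) + 1) / (p : ℝ) ^ m) Filter.atTop (nhds 0) := by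
    have h2 := tendsto_pow_const_div_const_pow_of_one_lt 1 hp1
    have h3 := tendsto_pow_const_div_const_pow_of_one_lt 0 hp1
    have h4 := h2.add h3
    rw [add_zero] at h4
    refine h4.congr (fun m => ?_)
    rw [pow_one, pow_zero, ← add_div]
  have h5 : ∃ M : ℕ, ∀ m ≥ M, ((m : ℝ) + 1) / (p : ℝ) ^ m < ε / (d * (|C| + 1)) := by
    have h6 : 0 < ε / (d * (|C| + 1)) := by positivity
    exact Filter.eventually_atTop.1 (h1.eventually (gt_mem_nhds h6))
  obtain ⟨M, hM⟩ := h5
  refine ⟨M, fun m hm K hK => ?_⟩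
  have h7 := hM m hm
  have hpm : (0 : ℝ) < (p : ℝ) ^ m := pow_pos (by linarith) m
  rw [div_lt_iff₀ hpm, div_mul_eq_mul_div, lt_div_iff₀ (by positivity)] at h7
  have h8 : (p : ℝ) ^ m ≤ deg F K * d := by
    have := layer_deg hp.out hF hK
    rw [hd]
    exact_mod_cast this
  have h10 : C ≤ |C| + 1 := by linarith [le_abs_self C]
  have hm0 : (0 : ℝ) ≤ (m : ℝ) + 1 := by positivity
  have h11 : ((m : ℝ) + 1) * (|C| + 1) * d < ε * deg F K * d := by
    calc ((m : ℝ) + 1) * (|C| + 1) * d = (↑m + 1) * (d * (|C| + 1)) := by ring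
      _ < ε * (p : ℝ) ^ m := h7
      _ ≤ ε * (deg F K * d) := mul_le_mul_of_nonneg_left h8 hε.le
      _ = ε * deg F K * d := by ring
  have h12 := lt_of_mul_lt_mul_right h11 hd0.le
  calc C * (m + 1) ≤ (|C| + 1) * (m + 1) := mul_le_mul_of_nonneg_right h10 hm0
    _ = ((m : ℝ) + 1) * (|C| + 1) := by ring
    _ < ε * deg F K := h12

lemma deg_pos {e : ℕ} {F L : IntermediateField ℚ ℂ} (hL : IsAb p e F L) : 0 < deg F L := by
  obtain ⟨h, hE, _, _⟩ := hL
  have := finite_gal hE
  rw [← card_gal hE]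
  exact Nat.card_pos

omit hp in
lemma fin_bot {K : IntermediateField ℚ ℂ} (hK : IsTame p k K) : FiniteDimensional ℚ k := by
  obtain ⟨⟨h, h1, _⟩, _⟩ := hK
  exact Module.Finite.of_injective (IntermediateField.inclusion h).toLinearMap
    (IntermediateField.inclusion_injective h)

omit hp in
lemma sup_self {K : IntermediateField ℚ ℂ} (hK : IsTame p k K) : K ⊔ k = K := by
  obtain ⟨⟨h, _⟩, _⟩ := hK
  exact sup_eq_left.2 h

lemma muZero_iff (hD : Known D p k) {K : IntermediateField ℚ ℂ} (hK : IsTame p k K) :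
    MuZero p K ↔ D.mu K k = 0 := by
  have hk := fin_bot hK
  have hself := isAb_self p 0 hk
  obtain ⟨C, hC⟩ := hD.formula K k 0 hK hself
  rw [sup_self hK] at hC
  have hKf : FiniteDimensional ℚ K := by
    obtain ⟨⟨_, h, _⟩, _⟩ := hK
    exact h
  constructor
  · rintro ⟨B, hB⟩
    by_contra hne
    have hpos : (1 : ℝ) ≤ D.mu K k := by
      have : 1 ≤ D.mu K k := Nat.one_le_iff_ne_zero.2 hne
      exact_mod_cast this
    obtain ⟨M, hM⟩ := exists_small (p := p) hKf (C + B) 1 one_pos
    obtain ⟨L, hL⟩ := hD.layers.exists M K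
    have h1 := hM M le_rfl L hL
    have h2 := (abs_le.1 (hC M L hL)).1
    have h3 : (vh p L : ℝ) ≤ B * (M + 1) := by exact_mod_cast hB M L hL
    have h4 : (deg K L : ℝ) ≤ D.mu K k * deg K L := by
      nlinarith [(Nat.cast_nonneg (deg K L) : (0 : ℝ) ≤ _)]
    nlinarith
  · intro h0
    refine ⟨⌈C⌉₊, fun m L hL => ?_⟩
    have h2 := (abs_le.1 (hC m L hL)).2
    rw [h0, Nat.cast_zero, zero_mul, sub_zero] at h2
    have h3 : (vh p L : ℝ) ≤ (⌈C⌉₊ * (m + 1) : ℕ) := by
      refine h2.trans ?_
      push_cast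
      exact mul_le_mul_of_nonneg_right (Nat.le_ceil C) (by positivity)
    exact_mod_cast h3

/-- the bound for the `μ`-invariant -/
lemma mu_growth (hD : Known D p k) {K M : IntermediateField ℚ ℂ} {e : ℕ} (hK : IsTame p k K) (hM : IsAb p e k M)
    (h0 : D.mu K k ≠ 0) : deg k M ≤ p ^ (2 * e) * D.mu K M := by
  obtain ⟨i, _, hi⟩ : ∃ i ∈ Finset.univ, D.d K i * (Module.length (D.O K i) (D.X K i k)).toNat ≠ 0 := by
    by_contra hc
    push_neg at hc
    exact h0 (Finset.sum_eq_zero hc)
  have hd := (hD.loc K i).2.2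
  have hT := hD.torsion K i k
  have hT' := hD.torsion K i M
  have hfin := hT.1
  have hfin' := hT'.1
  have h1 : 0 < rk (D.O K i) (D.X K i k) := by
    rw [Nat.pos_iff_ne_zero]
    intro h
    apply hi
    rw [rk_eq_zero_iff.1 h]
    simp
  obtain ⟨h, hE, hc, he⟩ := hM
  have hfg := finite_gal hE
  have hI := (hD.loc K i).1
  have hC := (hD.loc K i).2.1
  have h2 := card_le_of_comm hc he (hD.pres K M i h hK hE (fun g => ⟨e, he g⟩)) h1
  rw [card_gal hE] at h2
  have h3 : rk (D.O K i) (D.X K i M) ≤ (Module.length (D.O K i) (D.X K i M)).toNat := by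
    have h4 : ((rk (D.O K i) (D.X K i M) : ℕ) : ℕ∞) ≤ Module.length (D.O K i) (D.X K i M) := rk_le_length
    rw [← ENat.natCast_toNat hT'.2] at h4
    exact_mod_cast h4
  have h5 : (Module.length (D.O K i) (D.X K i M)).toNat ≤ D.mu K M := by
    calc (Module.length (D.O K i) (D.X K i M)).toNat
        ≤ D.d K i * (Module.length (D.O K i) (D.X K i M)).toNat := Nat.le_mul_of_pos_left _ hd
      _ ≤ D.mu K M := Finset.single_le_sum
        (f := fun i => D.d K i * (Module.length (D.O K i) (D.X K i M)).toNat)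
        (fun _ _ => Nat.zero_le _) (Finset.mem_univ i)
  have h6 : e * (1 + 1) = 2 * e := by ring
  rw [h6] at h2
  exact h2.trans (Nat.mul_le_mul_left _ (h3.trans h5))

/-- **The dichotomy.** -/
lemma dichotomy (hD : Known D p k) {K M : IntermediateField ℚ ℂ} {e : ℕ} (hK : IsTame p k K) (hM : IsAb p e k M)
    (h0 : ¬ MuZero p K) : LargeAlways p k K M (1 / p ^ (2 * e)) := by
  rw [muZero_iff hD hK] at h0
  have h1 := mu_growth hD hK hM h0
  obtain ⟨C, hC⟩ := hD.formula K M e hK hM
  refine ⟨C, fun m L hL => ?_⟩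
  have h3 := (abs_le.1 (hC m L hL)).1
  have hq : (0 : ℝ) < (p : ℝ) ^ (2 * e) := pow_pos (by exact_mod_cast hp.out.pos) _
  have h4 : (deg k M : ℝ) ≤ (p : ℝ) ^ (2 * e) * D.mu K M := by exact_mod_cast h1
  rw [div_mul_eq_mul_div, one_mul]
  have h5 : (deg k M * deg (K ⊔ M) L : ℝ) / (p : ℝ) ^ (2 * e) ≤ D.mu K M * deg (K ⊔ M) L := by
    rw [div_le_iff₀ hq]
    nlinarith [(Nat.cast_nonneg (deg (K ⊔ M) L) : (0 : ℝ) ≤ _)]
  linarith

lemma not_small (hD : Known D p k) {K M : IntermediateField ℚ ℂ} {e : ℕ} (hK : IsTame p k K) (hM : IsAb p e k M)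
    {c : ℝ} (hc : c < 1 / p ^ (2 * e)) (h0 : ¬ MuZero p K) : ¬ SmallOften p k K M c := by
  intro hs
  obtain ⟨C, hC⟩ := dichotomy hD hK hM h0
  have hdp := deg_pos hM
  have hMf := fin_of_isAb hM
  have hKf : FiniteDimensional ℚ K := by
    obtain ⟨⟨_, h, _⟩, _⟩ := hK
    exact h
  have hKM : FiniteDimensional ℚ ↥(K ⊔ M) := IntermediateField.finiteDimensional_sup K M
  obtain ⟨N, hN⟩ := exists_small (p := p) hKM C (1 / p ^ (2 * e) - c) (by linarith)
  obtain ⟨m, hm, L, hL, hsm⟩ := hs N
  have h1 := hN m hm L hL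
  have h2 := hC m L hL
  have h3 : (deg (K ⊔ M) L : ℝ) ≤ deg k M * deg (K ⊔ M) L := by
    have : (1 : ℝ) ≤ deg k M := by exact_mod_cast hdp
    nlinarith [(Nat.cast_nonneg (deg (K ⊔ M) L) : (0 : ℝ) ≤ _)]
  have h4 : (1 / (p : ℝ) ^ (2 * e) - c) * deg (K ⊔ M) L ≤
      (1 / (p : ℝ) ^ (2 * e) - c) * (deg k M * deg (K ⊔ M) L) :=
    mul_le_mul_of_nonneg_left h3 (by linarith)
  have h5 : (1 / (p : ℝ) ^ (2 * e) - c) * (deg k M * deg (K ⊔ M) L) =
    1 / (p : ℝ) ^ (2 * e) * (deg k M * deg (K ⊔ M) L) - c * (deg k M * deg (K ⊔ M) L) := by ring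
  linarith

lemma small_of_muZero (hl : HasLayers p) {K : IntermediateField ℚ ℂ} (hK : IsTame p k K)
    (h0 : MuZero p K) {c : ℝ} (hc : 0 < c) : SmallOften p k K k c := by
  obtain ⟨C, hC⟩ := h0
  have hKf : FiniteDimensional ℚ K := by
    obtain ⟨⟨_, h, _⟩, _⟩ := hK
    exact h
  have hd := deg_pos (isAb_self p 0 (fin_bot hK))
  obtain ⟨M, hM⟩ := exists_small (p := p) hKf C c hc
  intro N
  obtain ⟨L, hL⟩ := hl.exists (max M N) K
  refine ⟨max M N, le_max_right _ _, L, by rw [sup_self hK]; exact hL, ?_⟩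
  rw [sup_self hK]
  have h1 := hM (max M N) (le_max_left _ _) L hL
  have h2 : (vh p L : ℝ) ≤ C * ((max M N : ℕ) + 1) := by exact_mod_cast hC _ L hL
  have h3 : (deg K L : ℝ) ≤ deg k k * deg K L := by
    have : (1 : ℝ) ≤ deg k k := by exact_mod_cast hd
    nlinarith [(Nat.cast_nonneg (deg K L) : (0 : ℝ) ≤ _)]
  exact h2.trans (h1.le.trans (mul_le_mul_of_nonneg_left h3 hc.le))

end

/-- Let `p` be a prime, `k` an imaginary quadratic field, `F_m` the `m`-th layer of the cyclotomic `ℤ_p`-extension of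
the number field `F`, and `v` the exponent of `p` in the class number. Assume the known properties of the Iwasawa modules.
Then:

(1) For every abelian extension `K / k` of degree prime to `p` either `v(K_m) = O(m)` (the conjecture for `K`), or for ALL
abelian `p`-extensions `M / k` with group of exponent `p ^ e` and `M ∩ k_∞ = k` one has
`v((K M)_m) ≥ [M : k] [(K M)_m : K M] / p ^ (2 e) - O(m)`.

(2) For such a `K` the conjecture holds if and only if there are `e`, such an `M` and `c < 1 / p ^ (2 e)` such that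
`v((K M)_m) ≤ c [M : k] [(K M)_m : K M]` for infinitely many `m`.

(3) The conjecture holds for all finite abelian extensions of `k` if and only if for every abelian extension `K` of `k` of
degree prime to `p` and all `ε > 0` there is an elementary abelian `p`-extension `M` of `k` (with `M ∩ k_∞ = k`) such that
`v((K M)_m) ≤ ε [M : k] [(K M)_m : K M]` for infinitely many `m`. -/
theorem result (p : ℕ) [Fact p.Prime] (k : IntermediateField ℚ ℂ) (_ : Module.finrank ℚ k = 2) (_ : IsTotImag k)
    (D : CharData) (hD : Known D p k) :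
    (∀ K, IsTame p k K → (MuZero p K ∨ ∀ e M, IsAb p e k M → LargeAlways p k K M (1 / p ^ (2 * e)))) ∧
    (∀ K, IsTame p k K → (MuZero p K ↔ ∃ (e : ℕ) (M : IntermediateField ℚ ℂ) (c : ℝ), IsAb p e k M ∧
      c < 1 / p ^ (2 * e) ∧ SmallOften p k K M c)) ∧
    ((∀ K, IsAbelian k K → MuZero p K) ↔
      ∀ K, IsTame p k K → ∀ ε : ℝ, 0 < ε → ∃ M, IsAb p 1 k M ∧ SmallOften p k K M ε) := by
  refine ⟨?_, ?_, ?_⟩
  · intro K hK
    by_cases h : MuZero p K
    · exact Or.inl h
    · exact Or.inr (fun e M hM => dichotomy hD hK hM h)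
  · intro K hK
    constructor
    · intro h
      refine ⟨0, k, 1 / 2, isAb_self p 0 (fin_bot hK), ?_, small_of_muZero hD.layers hK h (by norm_num)⟩
      rw [mul_zero, pow_zero]
      norm_num
    · rintro ⟨e, M, c, hM, hc, hs⟩
      by_contra h
      exact not_small hD hK hM hc h hs
  · constructor
    · intro h K hK ε hε
      exact ⟨k, isAb_self p 1 (fin_bot hK), small_of_muZero hD.layers hK (h K hK.1) hε⟩
    · intro h K' hK'
      obtain ⟨K, hK, himp⟩ := hD.descent K' hK'
      apply himp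
      by_contra h0
      have hq : (0 : ℝ) < (p : ℝ) ^ (2 * 1) := pow_pos (by exact_mod_cast (Fact.out : p.Prime).pos) _
      obtain ⟨M, hM, hs⟩ := h K hK (1 / p ^ (2 * 1) / 2) (by positivity)
      refine not_small hD hK hM ?_ h0 hs
      have : (0 : ℝ) < 1 / (p : ℝ) ^ (2 * 1) := by positivity
      linarith

end Pool.Agent.Results.MP_b78433_nt.AbsoluteGap
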