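import Pool.Agent.Q182.SP.ImQuad

/-!
# Class numbers in the layers over an imaginary quadratic field: a dichotomy and a test by one extension

(Theorem of helper50; one of the two parts of the former joined hand-in StrictGrowth; the other one is
MuGrowthAndCyclicComponents.)
-/

set_option autoImplicit false
set_option maxHeartbeats 4000000
set_option synthInstance.maxHeartbeats 400000

namespace Pool.Agent.Results.MP_b78433_nt.ClassNumberDichotomy

open Pool.Agent.Q173.MU Pool.Agent.Q50.MU Pool.Agent.Q182.SP.ImQuad

/-- Let `p` be a prime, `k` an imaginary quadratic field, `F_m` the `m`-th layer of the cyclotomic `ℤ_p`-extension of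
the number field `F`, and `v` the exponent of `p` in the class number. Assume the known properties of the Iwasawa modules.
Let `K / k` be an abelian extension of degree prime to `p` and `M / k` ANY Galois `p`-extension with `M ∩ k_∞ = k` whose
group has a quotient `(ℤ/p)^d`, `d ≥ 1`. Then:

(1) Either `v(K_m) = O(m)` (the conjecture for `K`) or `v(K_m M) ≥ v(K_m) + (d - 1) [K_m : K] - O(m)`. For `0 < c < d - 1`
the conjecture for `K` holds if and only if `v(K_m M) ≤ v(K_m) + c [K_m : K]` for infinitely many `m`.

(2) The conjecture holds for all finite abelian extensions of `k` if and only if for every abelian extension `K` of `k` of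
degree prime to `p` there are `M` with a quotient `(ℤ/p)^2` of its group and `c < 1` such that
`v(K_m M) ≤ v(K_m) + c [K_m : K]` for infinitely many `m`. -/
theorem result (p : ℕ) [Fact p.Prime] (k : IntermediateField ℚ ℂ) (_ : Module.finrank ℚ k = 2) (_ : IsTotImag k)
    (D : CharData) (hD : Known D p k) :
    (∀ K d M, IsTame p k K → 1 ≤ d → IsPExt p d k K M → (MuZero p K ∨ GrowsBy p (vR p) K (K ⊔ M) (d - 1)) ∧
      ∀ c : ℝ, 0 < c → c < d - 1 → (MuZero p K ↔ SmallGrowth p (vR p) K (K ⊔ M) c)) ∧
    ((∀ K, IsAbelian k K → MuZero p K) ↔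
      ∀ K, IsTame p k K → ∃ (M : IntermediateField ℚ ℂ) (c : ℝ), IsPExt p 2 k K M ∧ c < 1 ∧
        SmallGrowth p (vR p) K (K ⊔ M) c) := by
  refine ⟨fun K d M hK hd hM => ⟨?_, fun c hc hc' => iff_growth hD hd hK hM hc hc'⟩, ?_⟩
  · by_cases h : MuZero p K
    · exact Or.inl h
    · exact Or.inr (growth hD hd hK hM h)
  · constructor
    · intro h K hK
      obtain ⟨M, hM⟩ := hD.ext K hK
      refine ⟨M, 1 / 2, hM, by norm_num, (iff_growth hD (by norm_num) hK hM (by norm_num) ?_).1 (h K hK.1)⟩
      norm_num
    · intro h K' hK'
      obtain ⟨K, hK, himp⟩ := hD.descent K' hK'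
      apply himp
      obtain ⟨M, c, hM, hc, hs⟩ := h K hK
      by_contra h0
      have h1 := growth hD (by norm_num) hK hM h0
      refine not_smallGrowth (fin_tame hK) ?_ h1 hs
      norm_num
      linarith

end Pool.Agent.Results.MP_b78433_nt.ClassNumberDichotomy
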