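import Pool.Agent.Q182.SP.ImQuad

/-!
# Growth of the `μ`-invariant in `p`-extensions of an imaginary quadratic field

(Theorem of helper50; one of the two parts of the former joined hand-in StrictGrowth; the other one is
ClassNumberDichotomy.)
-/

set_option autoImplicit false
set_option maxHeartbeats 4000000
set_option synthInstance.maxHeartbeats 400000

namespace Pool.Agent.Results.MP_b78433_nt.MuGrowthAndCyclicComponents

open Pool.Agent.Q173.MU Pool.Agent.Q50.MU Pool.Agent.Q182.SP.ImQuad

/-- Let `p` be a prime, `k` an imaginary quadratic field. Assume the known properties of the Iwasawa modules. Let `K / k` be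
an abelian extension of degree prime to `p`, `μ(K)` its `μ`-invariant and `m(K)` the number of the summands
`Λ / (p ^ (m_i))` of `X(K_∞)`. Then:

(1) the conjecture holds for `K` if and only if `μ(K) = 0`, if and only if `m(K) = 0`;

(2) for ALL Galois `p`-extensions `M / k` with `M ∩ k_∞ = k` whose group has a quotient `(ℤ/p)^d`, `d ≥ 1`, one has
`μ(K M) ≥ μ(K) + (d - 1) m(K)`; so `μ(K M) > μ(K)` if the group is not cyclic, unless `μ(K) = 0`;

(3) if `μ(K M) ≤ μ(K)` for one such `M ≠ k` (`d = 1`), then for every character `ψ` of `Gal(K / k)` the `ψ`-component of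
`X(K_∞)`, localised at `(p)`, is a cyclic module. -/
theorem result (p : ℕ) [Fact p.Prime] (k : IntermediateField ℚ ℂ) (_ : Module.finrank ℚ k = 2) (_ : IsTotImag k)
    (D : CharData) (hD : Known D p k) :
    (∀ K, IsTame p k K → (MuZero p K ↔ D.mu K k = 0) ∧ (D.mu K k = 0 ↔ D.m K k = 0) ∧
      ∀ d M, 1 ≤ d → IsPExt p d k K M → D.mu K k + (d - 1) * D.m K k ≤ D.mu K M) ∧
    (∀ K M, IsTame p k K → IsPExt p 1 k K M → D.mu K M ≤ D.mu K k → ∀ i, rk (D.O K i) (D.X K i k) ≤ 1) :=
  ⟨fun K hK => ⟨muZero_iff hD hK, mu_zero_iff hD K, fun d M hd hM => mu_growth hD hd hK hM⟩,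
    fun K M hK hM h0 i => cyclic_of_eq hD hK hM h0 i⟩

end Pool.Agent.Results.MP_b78433_nt.MuGrowthAndCyclicComponents
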